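import Pool.Agent.Grig60.Proof

/-!
In the Grigorchuk group there are two subgroups, each generated by three elements, whose product
set is not closed in the profinite topology.
-/

set_option autoImplicit false

namespace Pool.Agent.Results.MP_c3451b_al.ProductNotClosed

open scoped Pointwise
open Pool.Agent.Grig60

/-- There are elements `u 0, u 1, u 2` and `v 0, v 1, v 2` of the Grigorchuk group such that the
product set `A B` of the subgroups `A = ⟨u 0, u 1, u 2⟩` and `B = ⟨v 0, v 1, v 2⟩` is not closed in
the profinite topology. -/
theorem result : ∃ u v : Fin 3 → Grigorchuk, ¬ @IsClosed Grigorchuk (profiniteTopology Grigorchuk)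
    ((Subgroup.closure (Set.range u) : Set Grigorchuk) *
      (Subgroup.closure (Set.range v) : Set Grigorchuk)) :=
  main

end Pool.Agent.Results.MP_c3451b_al.ProductNotClosed
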